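import Mathlib

/-!
# MP_09e7c7_co: Harary polynomials and the reconstruction problem

For a graph property `P` let `h_i(G)` be the number of partitions of the vertex set of `G` into
exactly `i` non-empty blocks which induce graphs in `P`, and let `χ_P(G)` be the sum of the
`h_i(G) k (k - 1) ... (k - i + 1)`. We prove, for every `P`, that the numbers `h_i(G)`, `i ≥ 2`,
depend only on the deck of `G` (the collection of the graphs `G - v`). Since `h_1(G)` is `1` or `0`
according to whether `G` belongs to `P`, two graphs with the same deck have the same polynomial if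
both or none of them belong to `P`.

So if `χ_P` is complete (a negative answer to Q1), then among any three graphs with the same deck
two are isomorphic. If `χ_P` has only finitely many pairs of mates (a negative answer to Q2), then
this holds for all graphs of large order. That a deck belongs to at most two graphs is a weak form
of the reconstruction conjecture and is not known. The graphs `K₂` and `2 K₁` have the same deck;
so exactly one of them belongs to `P` if `χ_P` is complete, and in this case also `K₁` belongs to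
`P`.

Proof. A partition into `i ≥ 2` blocks is a family of `i` non-empty sets with total size `n` and
with union `V(G)`. The number of all families of `i` members of `P` (on non-empty vertex sets) of
total size `n` depends only on the numbers of induced subgraphs of order `s < n` in `P`, and the
number of the families with union `W ≠ V(G)` depends only on `G[W]`. By Kelly's lemma both are
determined by the deck.
-/

set_option autoImplicit false

namespace Pool.Agent.Results.MP_09e7c7_co.DeckBarrier

open Finset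

/-- A graph property: a class of graphs closed under isomorphism (only its finite members
matter). -/
structure GraphProperty where
  /-- the members -/
  mem : ∀ V : Type, SimpleGraph V → Prop
  iso : ∀ (V W : Type) (G : SimpleGraph V) (H : SimpleGraph W), Nonempty (G ≃g H) →
    (mem V G ↔ mem W H)

/-- The induced subgraph `G[B]` belongs to `P`. -/
def In (P : GraphProperty) {n : ℕ} (G : SimpleGraph (Fin n)) (B : Finset (Fin n)) : Prop :=
  P.mem _ (G.induce (B : Set (Fin n)))

/-- `h_i(G)`: the number of partitions of the vertex set into exactly `i` (non-empty) blocks `B`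
with `G[B]` in `P`. -/
noncomputable def numPart (P : GraphProperty) {n : ℕ} (G : SimpleGraph (Fin n)) (i : ℕ) : ℕ :=
  Nat.card {π : Finpartition (univ : Finset (Fin n)) //
    π.parts.card = i ∧ ∀ B ∈ π.parts, In P G B}

/-- The Harary polynomial: the sum of `h_i(G) k (k - 1) ... (k - i + 1)` over `0 ≤ i ≤ n`. -/
noncomputable def harary (P : GraphProperty) {n : ℕ} (G : SimpleGraph (Fin n)) : Polynomial ℤ :=
  ∑ i ∈ range (n + 1), (numPart P G i : ℤ) • descPochhammer ℤ i

/-- `G` and `H` have the same deck: for a bijection `σ` of the vertices the vertex-deleted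
subgraphs `G - v` and `H - σ v` are isomorphic. -/
def SameDeck {n : ℕ} (G H : SimpleGraph (Fin n)) : Prop :=
  ∃ σ : Equiv.Perm (Fin n), ∀ v, Nonempty (G.induce {v}ᶜ ≃g H.induce {σ v}ᶜ)

section aux

variable {n : ℕ}

theorem kelly (f g : Finset (Fin n) → ℕ) (σ : Equiv.Perm (Fin n))
    (θ : Fin n → Equiv.Perm (Fin n)) (hσ : ∀ v, θ v v = σ v)
    (h : ∀ v W, v ∉ W → f W = g (W.map (θ v).toEmbedding)) (w : ℕ) (hw : w < n) :
    ∑ W ∈ powersetCard w univ, f W = ∑ W ∈ powersetCard w univ, g W := by
  have count : ∀ f : Finset (Fin n) → ℕ,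
      ∑ v : Fin n, ∑ W ∈ (powersetCard w univ).filter (fun W => v ∉ W), f W =
        (n - w) * ∑ W ∈ powersetCard w univ, f W := by
    intro f
    simp_rw [Finset.sum_filter]
    rw [Finset.sum_comm, Finset.mul_sum]
    refine Finset.sum_congr rfl fun W hW => ?_
    rw [← Finset.sum_filter, Finset.sum_const, smul_eq_mul]
    congr 1
    have : (univ.filter (fun v => v ∉ W)) = Wᶜ := by ext; simp
    rw [this, card_compl, Fintype.card_fin, (mem_powersetCard.1 hW).2]
  have h1 : ∑ v : Fin n, ∑ W ∈ (powersetCard w univ).filter (fun W => v ∉ W), f W =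
      ∑ v : Fin n, ∑ W ∈ (powersetCard w univ).filter (fun W => v ∉ W), g W := by
    rw [← Equiv.sum_comp σ
      (fun v => ∑ W ∈ (powersetCard w univ).filter (fun W => v ∉ W), g W)]
    refine Finset.sum_congr rfl fun v _ => ?_
    refine Finset.sum_bij' (fun W _ => W.map (θ v).toEmbedding)
      (fun W _ => W.map (θ v).symm.toEmbedding) ?_ ?_ ?_ ?_ ?_
    · intro W hW
      rw [mem_filter, mem_powersetCard] at hW ⊢
      refine ⟨⟨subset_univ _, by rw [card_map]; exact hW.1.2⟩, ?_⟩
      rw [← hσ, mem_map_equiv, Equiv.symm_apply_apply]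
      exact hW.2
    · intro W hW
      rw [mem_filter, mem_powersetCard] at hW ⊢
      refine ⟨⟨subset_univ _, by rw [card_map]; exact hW.1.2⟩, ?_⟩
      rw [mem_map_equiv, Equiv.symm_symm, hσ]
      exact hW.2
    · intro W _
      ext x
      simp
    · intro W _
      ext x
      simp
    · intro W hW
      exact h v W (mem_filter.1 hW).2
  rw [count, count] at h1
  exact Nat.eq_of_mul_eq_mul_left (by omega) h1

theorem in_map (P : GraphProperty) {G H : SimpleGraph (Fin n)} (θ : Equiv.Perm (Fin n))
    (B : Finset (Fin n)) (hθ : ∀ x ∈ B, ∀ y ∈ B, G.Adj x y ↔ H.Adj (θ x) (θ y)) :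
    In P G B ↔ In P H (B.map θ.toEmbedding) := by
  apply P.iso
  refine ⟨⟨Equiv.subtypeEquiv θ fun x => by simp, ?_⟩⟩
  rintro ⟨a, ha⟩ ⟨b, hb⟩
  exact (hθ a (by simpa using ha) b (by simpa using hb)).symm

/-- Families of `i` non-empty sets with induced subgraphs in `P` and total size `n`. -/
def Fam (P : GraphProperty) (G : SimpleGraph (Fin n)) (i : ℕ) (F : Finset (Finset (Fin n))) :
    Prop :=
  F.card = i ∧ (∀ B ∈ F, B.Nonempty ∧ In P G B) ∧ ∑ B ∈ F, B.card = n

open Classical in
/-- The number of these families with union `W`. -/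
noncomputable def gg (P : GraphProperty) (G : SimpleGraph (Fin n)) (i : ℕ)
    (W : Finset (Fin n)) : ℕ :=
  (univ.filter fun F : Finset (Finset (Fin n)) => Fam P G i F ∧ F.biUnion id = W).card

open Classical in
/-- The number of all these families. -/
noncomputable def tot (P : GraphProperty) (G : SimpleGraph (Fin n)) (i : ℕ) : ℕ :=
  (univ.filter fun F : Finset (Finset (Fin n)) => Fam P G i F).card

theorem gg_le (P : GraphProperty) {G H : SimpleGraph (Fin n)} (i : ℕ) (θ : Equiv.Perm (Fin n))
    (W : Finset (Fin n)) (hθ : ∀ x ∈ W, ∀ y ∈ W, G.Adj x y ↔ H.Adj (θ x) (θ y)) :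
    gg P G i W ≤ gg P H i (W.map θ.toEmbedding) := by
  classical
  unfold gg
  refine Finset.card_le_card_of_injOn (fun F => F.map θ.finsetCongr.toEmbedding) ?_ ?_
  · intro F hF
    simp only [coe_filter, mem_univ, true_and, Set.mem_ofPred_eq] at hF ⊢
    obtain ⟨⟨h1, h2, h3⟩, h4⟩ := hF
    refine ⟨⟨by rw [card_map]; exact h1, ?_, ?_⟩, ?_⟩
    · intro B' hB'
      obtain ⟨B, hB, rfl⟩ := mem_map.1 hB'
      have hBW : B ⊆ W := by
        rw [← h4]
        exact subset_biUnion_of_mem id hB
      change (B.map θ.toEmbedding).Nonempty ∧ In P H (B.map θ.toEmbedding)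
      refine ⟨(h2 B hB).1.map, ?_⟩
      rw [← in_map P θ B fun x hx y hy => hθ x (hBW hx) y (hBW hy)]
      exact (h2 B hB).2
    · rw [sum_map]
      exact (sum_congr rfl fun B _ => card_map _).trans h3
    · ext x
      rw [← h4]
      simp only [mem_biUnion, mem_map, id]
      constructor
      · rintro ⟨B', ⟨B, hB, rfl⟩, hx⟩
        change x ∈ B.map θ.toEmbedding at hx
        obtain ⟨y, hy, rfl⟩ := mem_map.1 hx
        exact ⟨y, ⟨B, hB, hy⟩, rfl⟩
      · rintro ⟨y, ⟨B, hB, hy⟩, rfl⟩
        exact ⟨B.map θ.toEmbedding, ⟨B, hB, rfl⟩, mem_map_of_mem _ hy⟩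
  · intro F _ F' _ hFF
    exact map_injective _ hFF

theorem gg_eq (P : GraphProperty) {G H : SimpleGraph (Fin n)} (i : ℕ) (θ : Equiv.Perm (Fin n))
    (W : Finset (Fin n)) (hθ : ∀ x ∈ W, ∀ y ∈ W, G.Adj x y ↔ H.Adj (θ x) (θ y)) :
    gg P G i W = gg P H i (W.map θ.toEmbedding) := by
  refine le_antisymm (gg_le P i θ W hθ) ?_
  have h := gg_le P (G := H) (H := G) i θ.symm (W.map θ.toEmbedding) ?_
  · have hW : (W.map θ.toEmbedding).map θ.symm.toEmbedding = W := by
      ext x
      simp
    rwa [hW] at h
  · intro x' hx' y' hy'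
    obtain ⟨x, hx, rfl⟩ := mem_map.1 hx'
    obtain ⟨y, hy, rfl⟩ := mem_map.1 hy'
    simp only [Equiv.coe_toEmbedding, Equiv.symm_apply_apply]
    exact (hθ x hx y hy).symm

/-- A permutation which matches two labelled families. -/
theorem exists_perm {X : Type} [Fintype X] (c : X → ℕ) (p q : X → Prop) [DecidablePred p]
    [DecidablePred q] (h : ∀ s, (univ.filter fun x => c x = s ∧ p x).card =
      (univ.filter fun x => c x = s ∧ q x).card) :
    ∃ e : Equiv.Perm X, ∀ x, c (e x) = c x ∧ (q (e x) ↔ p x) := by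
  classical
  let a : X → ℕ × Bool := fun x => (c x, decide (p x))
  let b : X → ℕ × Bool := fun x => (c x, decide (q x))
  have hcard : ∀ y, Fintype.card {x // a x = y} = Fintype.card {x // b x = y} := by
    rintro ⟨s, t⟩
    rw [Fintype.card_subtype, Fintype.card_subtype]
    have h1 : ∀ r : X → Prop, [DecidablePred r] →
        (univ.filter fun x => (c x, decide (r x)) = (s, true)).card =
          (univ.filter fun x => c x = s ∧ r x).card := by
      intro r _
      congr 1
      ext x
      simp [Prod.ext_iff]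
    have h2 : ∀ r : X → Prop, [DecidablePred r] →
        (univ.filter fun x => (c x, decide (r x)) = (s, false)).card +
          (univ.filter fun x => c x = s ∧ r x).card = (univ.filter fun x => c x = s).card := by
      intro r _
      rw [← Finset.card_filter_add_card_filter_not (s := univ.filter fun x => c x = s) r,
        filter_filter, filter_filter, add_comm]
      congr 2
      ext x
      simp [Prod.ext_iff]
    cases t
    · have e1 := h2 p
      have e2 := h2 q
      have e3 := h s
      change (univ.filter fun x => (c x, decide (p x)) = (s, false)).card =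
        (univ.filter fun x => (c x, decide (q x)) = (s, false)).card
      omega
    · change (univ.filter fun x => (c x, decide (p x)) = (s, true)).card =
        (univ.filter fun x => (c x, decide (q x)) = (s, true)).card
      rw [h1 p, h1 q]
      exact h s
  let e : Equiv.Perm X := (Equiv.sigmaFiberEquiv a).symm.trans
    ((Equiv.sigmaCongrRight fun y => Fintype.equivOfCardEq (hcard y)).trans
      (Equiv.sigmaFiberEquiv b))
  refine ⟨e, fun x => ?_⟩
  have hx : b (e x) = a x := ((Fintype.equivOfCardEq (hcard (a x))) ⟨x, rfl⟩).2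
  have h1 : c (e x) = c x := congrArg Prod.fst hx
  have h2 : decide (q (e x)) = decide (p x) := congrArg Prod.snd hx
  exact ⟨h1, by simpa using h2⟩

theorem tot_le (P : GraphProperty) {G H : SimpleGraph (Fin n)} {i : ℕ} (hi : 2 ≤ i)
    (e : Equiv.Perm (Finset (Fin n)))
    (he : ∀ B, B.card < n → B.Nonempty → In P G B → (e B).card = B.card ∧ In P H (e B)) :
    tot P G i ≤ tot P H i := by
  classical
  unfold tot
  refine Finset.card_le_card_of_injOn (fun F => F.map e.toEmbedding) ?_ ?_
  · intro F hF
    simp only [coe_filter, mem_univ, true_and, Set.mem_ofPred_eq] at hF ⊢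
    obtain ⟨h1, h2, h3⟩ := hF
    have hlt : ∀ B ∈ F, B.card < n := by
      intro B hB
      obtain ⟨B', hB', hne⟩ := F.exists_mem_ne (by omega) B
      have h4 : ∑ C ∈ {B, B'}, C.card ≤ ∑ C ∈ F, C.card :=
        sum_le_sum_of_subset (by
          intro C hC
          rcases mem_insert.1 hC with rfl | hC
          · exact hB
          · rw [mem_singleton.1 hC]
            exact hB')
      rw [sum_pair hne.symm, h3] at h4
      have h5 := (h2 B' hB').1.card_pos
      omega
    refine ⟨by rw [card_map]; exact h1, ?_, ?_⟩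
    · intro B' hB'
      obtain ⟨B, hB, rfl⟩ := mem_map.1 hB'
      obtain ⟨h5, h6⟩ := he B (hlt B hB) (h2 B hB).1 (h2 B hB).2
      refine ⟨?_, h6⟩
      rw [← card_pos]
      change 0 < (e B).card
      rw [h5]
      exact (h2 B hB).1.card_pos
    · rw [sum_map]
      exact (sum_congr rfl fun B hB =>
        (he B (hlt B hB) (h2 B hB).1 (h2 B hB).2).1).trans h3
  · intro F _ F' _ hFF
    exact map_injective _ hFF

theorem tot_split (P : GraphProperty) (G : SimpleGraph (Fin n)) (i : ℕ) :
    tot P G i = ∑ w ∈ range n, ∑ W ∈ powersetCard w univ, gg P G i W + gg P G i univ := by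
  classical
  have h1 : tot P G i = ∑ W : Finset (Fin n), gg P G i W := by
    unfold tot gg
    rw [Finset.card_eq_sum_card_fiberwise (f := fun F : Finset (Finset (Fin n)) => F.biUnion id)
      (t := univ) (fun _ _ => mem_coe.2 (mem_univ _))]
    refine sum_congr rfl fun W _ => ?_
    rw [filter_filter]
  rw [h1, ← Finset.powerset_univ, Finset.sum_powerset, Finset.sum_range_succ, card_univ,
    Fintype.card_fin]
  congr 1
  have h2 : powersetCard n (univ : Finset (Fin n)) = {univ} := by
    have h3 := powersetCard_self (univ : Finset (Fin n))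
    rwa [card_univ, Fintype.card_fin] at h3
  rw [h2, sum_singleton]

theorem existsUnique_of_sum {F : Finset (Finset (Fin n))} (h1 : ∑ B ∈ F, B.card = n)
    (h2 : F.biUnion id = univ) (a : Fin n) : ∃! t, t ∈ F ∧ a ∈ t := by
  classical
  have h3 : ∑ B ∈ F, B.card = ∑ a : Fin n, (F.filter fun B => a ∈ B).card := by
    have h4 : ∀ B : Finset (Fin n), B.card = ∑ a : Fin n, if a ∈ B then 1 else 0 := by
      intro B
      simp
    rw [sum_congr rfl fun B _ => h4 B, sum_comm]
    refine sum_congr rfl fun a _ => ?_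
    rw [card_filter]
  have h4 : ∀ a ∈ (univ : Finset (Fin n)), 1 ≤ (F.filter fun B => a ∈ B).card := by
    intro a _
    have h5 : a ∈ F.biUnion id := by rw [h2]; exact mem_univ a
    obtain ⟨B, hB, ha⟩ := mem_biUnion.1 h5
    exact card_pos.2 ⟨B, mem_filter.2 ⟨hB, ha⟩⟩
  have h5 : ∑ _a : Fin n, 1 = ∑ a : Fin n, (F.filter fun B => a ∈ B).card := by
    rw [← h3, h1]
    simp
  have h6 := (Finset.sum_eq_sum_iff_of_le h4).1 h5 a (mem_univ a)
  obtain ⟨B, hB⟩ := card_eq_one.1 h6.symm
  refine ⟨B, ?_, ?_⟩
  · have : B ∈ F.filter fun B => a ∈ B := by rw [hB]; exact mem_singleton_self B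
    exact mem_filter.1 this
  · intro C hC
    have : C ∈ F.filter fun B => a ∈ B := mem_filter.2 hC
    rw [hB] at this
    exact mem_singleton.1 this

theorem numPart_eq (P : GraphProperty) (G : SimpleGraph (Fin n)) (i : ℕ) :
    numPart P G i = gg P G i univ := by
  classical
  unfold numPart gg
  have e : {π : Finpartition (univ : Finset (Fin n)) //
      π.parts.card = i ∧ ∀ B ∈ π.parts, In P G B} ≃
      {F : Finset (Finset (Fin n)) // Fam P G i F ∧ F.biUnion id = univ} :=
    { toFun := fun π => ⟨π.1.parts, ⟨π.2.1, fun B hB => ⟨π.1.nonempty_of_mem_parts hB,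
        π.2.2 B hB⟩, by rw [π.1.sum_card_parts, card_univ, Fintype.card_fin]⟩,
        π.1.biUnion_parts⟩
      invFun := fun F => ⟨Finpartition.ofExistsUnique F.1 (fun _ _ => subset_univ _)
        (fun a _ => existsUnique_of_sum F.2.1.2.2 F.2.2 a)
        (fun h => by simpa using (F.2.1.2.1 _ h).1), F.2.1.1, fun B hB => (F.2.1.2.1 B hB).2⟩
      left_inv := fun π => Subtype.ext (Finpartition.ext rfl)
      right_inv := fun F => Subtype.ext rfl }
  rw [Nat.card_congr e, Nat.card_eq_fintype_card, Fintype.card_subtype]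

theorem exists_theta {G H : SimpleGraph (Fin n)} (h : SameDeck G H) :
    ∃ (σ : Equiv.Perm (Fin n)) (θ : Fin n → Equiv.Perm (Fin n)), (∀ v, θ v v = σ v) ∧
      ∀ v x y, x ≠ v → y ≠ v → (G.Adj x y ↔ H.Adj (θ v x) (θ v y)) := by
  classical
  obtain ⟨σ, hσ⟩ := h
  have hv : ∀ v, ∃ θ : Equiv.Perm (Fin n), θ v = σ v ∧
      ∀ x y, x ≠ v → y ≠ v → (G.Adj x y ↔ H.Adj (θ x) (θ y)) := by
    intro v
    obtain ⟨φ⟩ := hσ v
    let e : {x // x ∈ ({v}ᶜ : Set (Fin n))} ≃ {x // x ∈ ({σ v}ᶜ : Set (Fin n))} := φ.toEquiv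
    refine ⟨e.extendSubtype, ?_, ?_⟩
    · by_contra hne
      exact e.extendSubtype_not_mem v (by simp) hne
    · intro x y hx hy
      rw [e.extendSubtype_apply_of_mem x hx, e.extendSubtype_apply_of_mem y hy]
      exact (φ.map_adj_iff (v := ⟨x, hx⟩) (w := ⟨y, hy⟩)).symm
  choose θ h1 h2 using hv
  exact ⟨σ, θ, h1, h2⟩

/-- The numbers `h_i(G)`, `i ≥ 2`, depend only on the deck. -/
theorem numPart_deck (P : GraphProperty) {G H : SimpleGraph (Fin n)} (h : SameDeck G H) {i : ℕ}
    (hi : 2 ≤ i) : numPart P G i = numPart P H i := by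
  classical
  obtain ⟨σ, θ, hσ, hθ⟩ := exists_theta h
  have hp : ∀ s, (univ.filter fun B : Finset (Fin n) =>
        B.card = s ∧ (B.card < n ∧ B.Nonempty ∧ In P G B)).card =
      (univ.filter fun B : Finset (Fin n) =>
        B.card = s ∧ (B.card < n ∧ B.Nonempty ∧ In P H B)).card := by
    intro s
    by_cases hs : s < n
    · have h1 : ∀ G : SimpleGraph (Fin n), (univ.filter fun B : Finset (Fin n) =>
          B.card = s ∧ (B.card < n ∧ B.Nonempty ∧ In P G B)).card =
            ∑ W ∈ powersetCard s univ, if (W.Nonempty ∧ In P G W) then 1 else 0 := by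
        intro G
        rw [← card_filter]
        congr 1
        ext B
        simp only [mem_filter, mem_univ, true_and, mem_powersetCard, subset_univ]
        constructor
        · rintro ⟨a, b, c⟩
          exact ⟨a, c⟩
        · rintro ⟨a, c⟩
          exact ⟨a, by omega, c⟩
      rw [h1, h1]
      refine kelly _ _ σ θ hσ ?_ s hs
      intro v W hv
      have h2 : (W.Nonempty ∧ In P G W) ↔ ((W.map (θ v).toEmbedding).Nonempty ∧
          In P H (W.map (θ v).toEmbedding)) := by
        rw [map_nonempty, in_map P (θ v) W]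
        intro x hx y hy
        exact hθ v x y (fun h => hv (h ▸ hx)) (fun h => hv (h ▸ hy))
      simp only [h2]
    · have h1 : ∀ G : SimpleGraph (Fin n), (univ.filter fun B : Finset (Fin n) =>
          B.card = s ∧ (B.card < n ∧ B.Nonempty ∧ In P G B)) = ∅ := by
        intro G
        rw [filter_eq_empty_iff]
        rintro B - ⟨h1, h2, -⟩
        omega
      rw [h1, h1]
  obtain ⟨e, he⟩ := exists_perm (fun B : Finset (Fin n) => B.card)
    (fun B => B.card < n ∧ B.Nonempty ∧ In P G B) (fun B => B.card < n ∧ B.Nonempty ∧ In P H B) hp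
  have htot : tot P G i = tot P H i := by
    refine le_antisymm (tot_le P hi e ?_) (tot_le P hi e.symm ?_)
    · intro B h1 h2 h3
      exact ⟨(he B).1, ((he B).2.2 ⟨h1, h2, h3⟩).2.2⟩
    · intro B h1 h2 h3
      have h4 := he (e.symm B)
      rw [Equiv.apply_symm_apply] at h4
      exact ⟨h4.1.symm, (h4.2.1 ⟨h1, h2, h3⟩).2.2⟩
  have hsum : ∑ w ∈ range n, ∑ W ∈ powersetCard w univ, gg P G i W =
      ∑ w ∈ range n, ∑ W ∈ powersetCard w univ, gg P H i W := by
    refine sum_congr rfl fun w hw => ?_
    refine kelly _ _ σ θ hσ ?_ w (mem_range.1 hw)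
    intro v W hv
    refine gg_eq P i (θ v) W ?_
    intro x hx y hy
    exact hθ v x y (fun h => hv (h ▸ hx)) (fun h => hv (h ▸ hy))
  rw [tot_split, tot_split, hsum] at htot
  rw [numPart_eq, numPart_eq]
  exact Nat.add_left_cancel htot

theorem in_univ (P : GraphProperty) (G : SimpleGraph (Fin n)) : In P G univ ↔ P.mem _ G := by
  apply P.iso
  exact ⟨⟨Equiv.subtypeUnivEquiv fun x => by simp, Iff.rfl⟩⟩

theorem numPart_one (P : GraphProperty) {G H : SimpleGraph (Fin n)}
    (h : P.mem _ G ↔ P.mem _ H) : numPart P G 1 = numPart P H 1 := by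
  have key : ∀ G H : SimpleGraph (Fin n), (P.mem _ G → P.mem _ H) →
      ∀ π : Finpartition (univ : Finset (Fin n)),
        (π.parts.card = 1 ∧ ∀ B ∈ π.parts, In P G B) →
          (π.parts.card = 1 ∧ ∀ B ∈ π.parts, In P H B) := by
    rintro G H h π ⟨h1, h2⟩
    refine ⟨h1, ?_⟩
    obtain ⟨B, hB⟩ := card_eq_one.1 h1
    have h3 := π.biUnion_parts
    rw [hB, singleton_biUnion, id] at h3
    intro C hC
    have h4 : C = univ := by
      rw [hB, mem_singleton] at hC
      rw [hC, h3]
    have h5 := h2 C hC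
    rw [h4, in_univ] at h5 ⊢
    exact h h5
  unfold numPart
  exact Nat.card_congr (Equiv.subtypeEquivRight fun π => ⟨key G H h.1 π, key H G h.2 π⟩)

theorem numPart_zero (P : GraphProperty) (G H : SimpleGraph (Fin n)) :
    numPart P G 0 = numPart P H 0 := by
  have key : ∀ G H : SimpleGraph (Fin n), ∀ π : Finpartition (univ : Finset (Fin n)),
      (π.parts.card = 0 ∧ ∀ B ∈ π.parts, In P G B) →
        (π.parts.card = 0 ∧ ∀ B ∈ π.parts, In P H B) := by
    rintro G H π ⟨h1, h2⟩
    refine ⟨h1, fun B hB => ?_⟩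
    rw [card_eq_zero.1 h1] at hB
    exact absurd hB (notMem_empty B)
  unfold numPart
  exact Nat.card_congr (Equiv.subtypeEquivRight fun π => ⟨key G H π, key H G π⟩)

theorem harary_deck (P : GraphProperty) {G H : SimpleGraph (Fin n)} (h : SameDeck G H)
    (hP : P.mem _ G ↔ P.mem _ H) : harary P G = harary P H := by
  have h1 : ∀ i, numPart P G i = numPart P H i := by
    intro i
    rcases Nat.lt_or_ge i 2 with hi | hi
    · interval_cases i
      · exact numPart_zero P G H
      · exact numPart_one P hP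
    · exact numPart_deck P h hi
  unfold harary
  simp only [h1]

end aux

/-- `G` and `H` are mates: not isomorphic, with the same Harary polynomial. -/
def Mates (P : GraphProperty) {n m : ℕ} (G : SimpleGraph (Fin n)) (H : SimpleGraph (Fin m)) :
    Prop :=
  ¬ Nonempty (G ≃g H) ∧ harary P G = harary P H

/-- There are no three pairwise non-isomorphic graphs of order `n` with the same deck. -/
def AtMostTwo (n : ℕ) : Prop :=
  ∀ G₁ G₂ G₃ : SimpleGraph (Fin n), SameDeck G₁ G₂ → SameDeck G₂ G₃ → SameDeck G₁ G₃ →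
    Nonempty (G₁ ≃g G₂) ∨ Nonempty (G₂ ≃g G₃) ∨ Nonempty (G₁ ≃g G₃)

theorem split_of_noMates {P : GraphProperty} {n : ℕ}
    (h : ∀ G H : SimpleGraph (Fin n), ¬ Mates P G H) (G H : SimpleGraph (Fin n))
    (hd : SameDeck G H) (hi : ¬ Nonempty (G ≃g H)) : ¬ (P.mem _ G ↔ P.mem _ H) :=
  fun hP => h G H ⟨hi, harary_deck P hd hP⟩

theorem atMostTwo_of_noMates {P : GraphProperty} {n : ℕ}
    (h : ∀ G H : SimpleGraph (Fin n), ¬ Mates P G H) : AtMostTwo n := by
  intro G₁ G₂ G₃ h12 h23 h13
  by_contra hne
  push Not at hne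
  have a := split_of_noMates h G₁ G₂ h12 (not_nonempty_iff.2 hne.1)
  have b := split_of_noMates h G₂ G₃ h23 (not_nonempty_iff.2 hne.2.1)
  have c := split_of_noMates h G₁ G₃ h13 (not_nonempty_iff.2 hne.2.2)
  tauto

/-- The polynomial `χ_P` is complete: there are no mates. -/
def Complete (P : GraphProperty) : Prop :=
  ∀ (n m : ℕ) (G : SimpleGraph (Fin n)) (H : SimpleGraph (Fin m)), ¬ Mates P G H

/-- There are only finitely many pairs of mates. -/
def FinitelyManyMates (P : GraphProperty) : Prop :=
  {x : (Σ n, SimpleGraph (Fin n)) × (Σ n, SimpleGraph (Fin n)) |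
    Mates P x.1.2 x.2.2}.Finite

theorem in_single (P : GraphProperty) {n : ℕ} (G : SimpleGraph (Fin n)) (B : Finset (Fin n))
    (hB : B.card = 1) : In P G B ↔ P.mem _ (⊥ : SimpleGraph (Fin 1)) := by
  obtain ⟨x, rfl⟩ := card_eq_one.1 hB
  apply P.iso
  have hs : ∀ a b : ((({x} : Finset (Fin n)) : Set (Fin n)) : Type), a = b := by
    rintro ⟨a, ha⟩ ⟨b, hb⟩
    have ha' : a = x := by simpa using ha
    have hb' : b = x := by simpa using hb
    subst ha'
    subst hb'
    rfl
  refine ⟨⟨⟨fun _ => 0, fun _ => ⟨x, by simp⟩, fun a => hs _ _, fun b => Subsingleton.elim _ _⟩,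
    ?_⟩⟩
  intro a b
  rw [hs a b]
  simp

/-- If `K₁` is not in `P`, the polynomials of `K₁` and of the graphs of order two which are not in
`P` vanish. -/
theorem harary_zero (P : GraphProperty) (h1 : ¬ P.mem _ (⊥ : SimpleGraph (Fin 1))) {n : ℕ}
    (hn : 0 < n) (hn2 : n ≤ 2) (G : SimpleGraph (Fin n)) (hG : ¬ P.mem _ G) :
    harary P G = 0 := by
  have h2 : ∀ i, numPart P G i = 0 := by
    intro i
    have : IsEmpty {π : Finpartition (univ : Finset (Fin n)) //
        π.parts.card = i ∧ ∀ B ∈ π.parts, In P G B} := by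
      refine ⟨?_⟩
      rintro ⟨π, -, h3⟩
      obtain ⟨B, hB, -⟩ := π.exists_mem (mem_univ (⟨0, hn⟩ : Fin n))
      have h4 := (π.nonempty_of_mem_parts hB).card_pos
      have h5 : B.card ≤ n := by simpa using card_le_univ B
      rcases Nat.lt_or_ge B.card n with h6 | h6
      · exact h1 ((in_single P G B (by omega)).1 (h3 B hB))
      · have h7 : B = univ := by
          rw [← card_eq_iff_eq_univ, Fintype.card_fin]
          omega
        have h8 := h3 B hB
        rw [h7, in_univ] at h8
        exact hG h8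
    unfold numPart
    exact Nat.card_of_isEmpty
  unfold harary
  simp [h2]

theorem sameDeck_two (G H : SimpleGraph (Fin 2)) : SameDeck G H := by
  refine ⟨Equiv.refl _, fun v => ?_⟩
  refine ⟨⟨Equiv.refl _, ?_⟩⟩
  intro a b
  have hab : a = b := by
    obtain ⟨a, ha⟩ := a
    obtain ⟨b, hb⟩ := b
    have ha' : a ≠ v := ha
    have hb' : b ≠ v := hb
    apply Subtype.ext
    change a = b
    omega
  rw [hab]
  simp

theorem bot_top_two : ¬ Nonempty ((⊥ : SimpleGraph (Fin 2)) ≃g (⊤ : SimpleGraph (Fin 2))) := by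
  rintro ⟨φ⟩
  have h1 : (⊤ : SimpleGraph (Fin 2)).Adj (φ 0) (φ 1) := by
    rw [SimpleGraph.top_adj]
    exact fun h => absurd (φ.injective h) (by decide)
  exact absurd (φ.map_adj_iff.1 h1) (by simp)

theorem result :
    -- (1) the polynomial depends only on the deck and on the membership of the graph in `P`
    (∀ (P : GraphProperty) (n : ℕ) (G H : SimpleGraph (Fin n)), SameDeck G H →
      (∀ i, 2 ≤ i → numPart P G i = numPart P H i) ∧
      ((P.mem _ G ↔ P.mem _ H) → harary P G = harary P H)) ∧
    -- (2) what follows if there are no mates of order `n`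
    (∀ (P : GraphProperty) (n : ℕ), (∀ G H : SimpleGraph (Fin n), ¬ Mates P G H) →
      AtMostTwo n ∧ ∀ G H : SimpleGraph (Fin n), SameDeck G H → ¬ Nonempty (G ≃g H) →
        (P.mem _ G ↔ ¬ P.mem _ H)) ∧
    -- (3) a negative answer to Q1
    (∀ P : GraphProperty, Complete P →
      P.mem _ (⊥ : SimpleGraph (Fin 1)) ∧
      (P.mem _ (⊥ : SimpleGraph (Fin 2)) ↔ ¬ P.mem _ (⊤ : SimpleGraph (Fin 2))) ∧
      ∀ n, AtMostTwo n) ∧
    -- (4) a negative answer to Q2
    (∀ P : GraphProperty, FinitelyManyMates P → ∃ N, ∀ n, N ≤ n → AtMostTwo n) := by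
  have h2 : ∀ (P : GraphProperty) (n : ℕ), (∀ G H : SimpleGraph (Fin n), ¬ Mates P G H) →
      AtMostTwo n ∧ ∀ G H : SimpleGraph (Fin n), SameDeck G H → ¬ Nonempty (G ≃g H) →
        (P.mem _ G ↔ ¬ P.mem _ H) := by
    intro P n h
    refine ⟨atMostTwo_of_noMates h, fun G H hd hi => ?_⟩
    have := split_of_noMates h G H hd hi
    tauto
  refine ⟨fun P n G H h => ⟨fun i hi => numPart_deck P h hi, harary_deck P h⟩, h2, ?_, ?_⟩
  · intro P hP
    have h3 := (h2 P 2 (hP 2 2)).2 ⊥ ⊤ (sameDeck_two _ _) bot_top_two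
    refine ⟨?_, h3, fun n => (h2 P n (hP n n)).1⟩
    by_contra hK
    have h4 : ∃ G : SimpleGraph (Fin 2), ¬ P.mem _ G := by
      by_cases h5 : P.mem _ (⊥ : SimpleGraph (Fin 2))
      · exact ⟨⊤, h3.1 h5⟩
      · exact ⟨⊥, h5⟩
    obtain ⟨G, hG⟩ := h4
    apply hP 1 2 ⊥ G
    refine ⟨?_, ?_⟩
    · rintro ⟨φ⟩
      have := Fintype.card_congr φ.toEquiv
      simp at this
    · rw [harary_zero P hK one_pos one_le_two ⊥ hK, harary_zero P hK two_pos le_rfl G hG]
  · intro P hP
    have h3 : (Set.image (fun x : (Σ n, SimpleGraph (Fin n)) × (Σ n, SimpleGraph (Fin n)) =>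
        x.1.1) {x | Mates P x.1.2 x.2.2}).Finite := hP.image _
    obtain ⟨N, hN⟩ := h3.bddAbove
    refine ⟨N + 1, fun n hn => (h2 P n ?_).1⟩
    intro G H hGH
    have h4 : n ≤ N := hN ⟨(⟨n, G⟩, ⟨n, H⟩), hGH, rfl⟩
    omega

end Pool.Agent.Results.MP_09e7c7_co.DeckBarrier
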